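import Pool.Agent.Run7.h118.TDFinal

/-!
# Plane sets with a bounded complementary component convex in one direction
-/

set_option autoImplicit false

open Set

namespace Pool.Agent.Results.MP_42173d_gt.ConvexInOneDirection

/-- Let `K` be a closed plane set (for instance a continuum) and `O` a point off `K` such that the
component `U` of `O` in the complement of `K` is bounded and meets every line of one direction in a
connected (possibly empty) set. Then `K` contains the vertices of a square (`θ = π / 2`), and of a
rectangle with any prescribed angle `θ` between its diagonals. -/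
theorem result (K : Set ℂ) (hK : IsClosed K) (O : ℂ) (hO : O ∉ K)
    (hb : Bornology.IsBounded (connectedComponentIn Kᶜ O)) (w : ℂ) (hw : w ≠ 0)
    (hs : ∀ x : ℝ, IsPreconnected {z : ℂ | z ∈ connectedComponentIn Kᶜ O ∧ (w * z).re = x})
    (θ : ℝ) (h0 : 0 < θ) (hπ : θ < Real.pi) :
    ∃ z d : ℂ, d ≠ 0 ∧ z + d ∈ K ∧ z - d ∈ K ∧
      z + Complex.exp (θ * Complex.I) * d ∈ K ∧ z - Complex.exp (θ * Complex.I) * d ∈ K := by
  have hne : (connectedComponentIn Kᶜ O).Nonempty := ⟨O, mem_connectedComponentIn hO⟩
  obtain ⟨z, d, hd, h1, h2, h3, h4⟩ := Pool.Agent.Run7.h118.TG.Loc.domain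
    hK.isOpen_compl.connectedComponentIn hb hne isPreconnected_connectedComponentIn hw hs h0 hπ
  have hf := Pool.Agent.Run7.h118.TG.Loc.frontier_comp hK O
  exact ⟨z, d, hd, hf h1, hf h2, hf h3, hf h4⟩

end Pool.Agent.Results.MP_42173d_gt.ConvexInOneDirection
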